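import Pool.Agent.Helper73.LR.Stmts

/-!
# Rotation invariance of the surface measure and the generator identities (MP_a2630c_LR, rows ROT and GEN)
-/

set_option autoImplicit false
set_option linter.unusedSectionVars false

open MeasureTheory Set Metric Real
open scoped RealInnerProductSpace ENNReal Pointwise
open Pool.Agent.Helper16.Buoy (E)
open Pool.Agent.Helper73.LR

namespace Pool.Agent.Helper20.LR

variable {n : ℕ}

/-- a rotation as a homeomorphism of the sphere -/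
noncomputable def sph (R : E n ≃ₗᵢ[ℝ] E n) : SS n ≃ₜ SS n where
  toFun v := ⟨R v, by simp⟩
  invFun v := ⟨R.symm v, by simp⟩
  left_inv v := by simp
  right_inv v := by simp
  continuous_toFun := by fun_prop
  continuous_invFun := by fun_prop

theorem sph_coe (R : E n ≃ₗᵢ[ℝ] E n) (v : SS n) : ((sph R v : SS n) : E n) = R v := rfl

theorem sph_mp (R : E n ≃ₗᵢ[ℝ] E n) : MeasurePreserving (sph R) (sg n) (sg n) := by
  refine ⟨(sph R).measurable, ?_⟩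
  ext s hs
  rw [Measure.map_apply (sph R).measurable hs]
  unfold sg
  rw [Measure.toSphere_apply' _ hs, Measure.toSphere_apply' _ ((sph R).measurable hs)]
  congr 1
  have h : Ioo (0 : ℝ) 1 • ((↑) '' (sph R ⁻¹' s) : Set (E n)) = R ⁻¹' (Ioo (0 : ℝ) 1 • ((↑) '' s)) := by
    ext x
    simp only [Set.mem_smul, Set.mem_preimage, Set.mem_image]
    constructor
    · rintro ⟨r, hr, _, ⟨y, hy, rfl⟩, rfl⟩
      exact ⟨r, hr, _, ⟨sph R y, hy, rfl⟩, by rw [sph_coe, map_smul]⟩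
    · rintro ⟨r, hr, _, ⟨y, hy, rfl⟩, h⟩
      refine ⟨r, hr, _, ⟨(sph R).symm y, ?_, rfl⟩, ?_⟩
      · rw [(sph R).apply_symm_apply]
        exact hy
      · apply R.injective
        rw [map_smul, ← h]
        congr 1
        rw [← sph_coe, (sph R).apply_symm_apply]
  rw [h]
  exact R.measurePreserving.measure_preimage_emb R.toHomeomorph.measurableEmbedding _

theorem rot_gen {F : Type*} [NormedAddCommGroup F] [NormedSpace ℝ F] (R : E n ≃ₗᵢ[ℝ] E n) (g : E n → F) :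
    ∫ v : SS n, g (R v) ∂(sg n) = ∫ v : SS n, g v ∂(sg n) :=
  (sph_mp R).integral_comp (sph R).measurableEmbedding (fun v : SS n => g v)

theorem rot : S_rot := fun R g => rot_gen R g

/-! ### Rotations in a plane -/

/-- the rotation in the plane of `a` and `b`, as a linear map -/
noncomputable def rtL (a b : E n) (φ : ℝ) : E n →ₗ[ℝ] E n where
  toFun x := x + ((cos φ - 1) * ⟪a, x⟫ - sin φ * ⟪b, x⟫) • a + ((cos φ - 1) * ⟪b, x⟫ + sin φ * ⟪a, x⟫) • b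
  map_add' x y := by
    simp only [inner_add_right]
    module
  map_smul' r x := by
    simp only [inner_smul_right, RingHom.id_apply]
    module

theorem rtL_apply (a b : E n) (φ : ℝ) (x : E n) : rtL a b φ x =
    x + ((cos φ - 1) * ⟪a, x⟫ - sin φ * ⟪b, x⟫) • a + ((cos φ - 1) * ⟪b, x⟫ + sin φ * ⟪a, x⟫) • b := rfl

section plane
variable {a b : E n} (ha : ‖a‖ = 1) (hb : ‖b‖ = 1) (hab : ⟪a, b⟫ = 0)
include ha hb hab

theorem inner_a (φ : ℝ) (x : E n) : ⟪a, rtL a b φ x⟫ = cos φ * ⟪a, x⟫ - sin φ * ⟪b, x⟫ := by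
  rw [rtL_apply, inner_add_right, inner_add_right, inner_smul_right, inner_smul_right, hab,
    real_inner_self_eq_norm_sq, ha]
  ring

theorem inner_b (φ : ℝ) (x : E n) : ⟪b, rtL a b φ x⟫ = cos φ * ⟪b, x⟫ + sin φ * ⟪a, x⟫ := by
  have hba : ⟪b, a⟫ = 0 := by rw [real_inner_comm, hab]
  rw [rtL_apply, inner_add_right, inner_add_right, inner_smul_right, inner_smul_right, hba,
    real_inner_self_eq_norm_sq, hb]
  ring

omit ha hb hab in
theorem inner_c {c : E n} (hac : ⟪c, a⟫ = 0) (hbc : ⟪c, b⟫ = 0) (φ : ℝ) (x : E n) : ⟪c, rtL a b φ x⟫ = ⟪c, x⟫ := by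
  rw [rtL_apply, inner_add_right, inner_add_right, inner_smul_right, inner_smul_right, hac, hbc]
  ring

theorem norm_rtL (φ : ℝ) (x : E n) : ‖rtL a b φ x‖ = ‖x‖ := by
  have h : ‖rtL a b φ x‖ ^ 2 = ‖x‖ ^ 2 := by
    have h1 : ∀ y, ⟪rtL a b φ x, y⟫ = ⟪x, y⟫ + ((cos φ - 1) * ⟪a, x⟫ - sin φ * ⟪b, x⟫) * ⟪a, y⟫ +
        ((cos φ - 1) * ⟪b, x⟫ + sin φ * ⟪a, x⟫) * ⟪b, y⟫ := by
      intro y
      rw [rtL_apply, inner_add_left, inner_add_left, inner_smul_left, inner_smul_left]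
      simp only [conj_trivial]
    rw [← real_inner_self_eq_norm_sq, ← real_inner_self_eq_norm_sq, h1, inner_a ha hb hab, inner_b ha hb hab,
      real_inner_comm, h1]
    have := sin_sq_add_cos_sq φ
    linear_combination (⟪a, x⟫ ^ 2 + ⟪b, x⟫ ^ 2) * this
  exact (sq_eq_sq₀ (norm_nonneg _) (norm_nonneg _)).1 h

/-- the rotation in the plane of `a` and `b` -/
noncomputable def rt (φ : ℝ) : E n ≃ₗᵢ[ℝ] E n :=
  LinearIsometry.toLinearIsometryEquiv ⟨rtL a b φ, norm_rtL ha hb hab φ⟩ rfl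

theorem rt_apply (φ : ℝ) (x : E n) : rt ha hb hab φ x = rtL a b φ x := rfl

end plane

/-- differentiation of the rotation invariance -/
theorem gen0 {a b : E n} (ha : ‖a‖ = 1) (hb : ‖b‖ = 1) (hab : ⟪a, b⟫ = 0) {F D : E n → ℂ} (hF : Continuous F)
    (hD : Continuous D) (h : ∀ x φ, HasDerivAt (fun ψ => F (rtL a b ψ x)) (D (rtL a b φ x)) φ) :
    ∫ x : SS n, D x ∂(sg n) = 0 := by
  have : IsFiniteMeasure (sg n) := by unfold sg; infer_instance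
  have hcs : IsCompact (SS n) := isCompact_sphere _ _
  obtain ⟨C, hC⟩ := hcs.exists_bound_of_continuousOn hD.continuousOn
  have hrot : ∀ φ, ∫ x : SS n, F (rtL a b φ x) ∂(sg n) = ∫ x : SS n, F x ∂(sg n) := fun φ =>
    rot_gen (rt ha hb hab φ) F
  have hcont : ∀ φ, Continuous fun x : SS n => F (rtL a b φ x) := fun φ =>
    hF.comp ((rt ha hb hab φ).continuous.comp continuous_subtype_val)
  have hcontD : ∀ φ, Continuous fun x : SS n => D (rtL a b φ x) := fun φ =>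
    hD.comp ((rt ha hb hab φ).continuous.comp continuous_subtype_val)
  have hint : ∀ {G : SS n → ℂ}, Continuous G → Integrable G (sg n) := fun {G} hG =>
    hG.integrable_of_hasCompactSupport (HasCompactSupport.of_compactSpace G)
  have h1 := hasDerivAt_integral_of_dominated_loc_of_deriv_le (μ := sg n) (𝕜 := ℝ)
    (F := fun φ (x : SS n) => F (rtL a b φ x)) (F' := fun φ (x : SS n) => D (rtL a b φ x)) (x₀ := 0)
    (s := univ) (bound := fun _ => C) Filter.univ_mem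
    (Filter.Eventually.of_forall fun φ => (hcont φ).aestronglyMeasurable)
    (hint (hcont 0)) (hcontD 0).aestronglyMeasurable
    (Filter.Eventually.of_forall fun x φ _ => hC _ (by
      rw [mem_sphere_zero_iff_norm, norm_rtL ha hb hab]
      exact norm_eq_of_mem_sphere x))
    (integrable_const C)
    (Filter.Eventually.of_forall fun x φ _ => h x φ)
  have h2 := h1.2
  simp only [hrot] at h2
  have h3 := h2.unique (hasDerivAt_const (0 : ℝ) _)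
  rw [← h3]
  refine integral_congr_ae (Filter.Eventually.of_forall fun x => ?_)
  dsimp only
  congr 1
  rw [rtL_apply]
  simp

theorem hasDeriv_a {a b : E n} (ha : ‖a‖ = 1) (hb : ‖b‖ = 1) (hab : ⟪a, b⟫ = 0) (x : E n) (φ : ℝ) :
    HasDerivAt (fun ψ => ⟪a, rtL a b ψ x⟫) (-⟪b, rtL a b φ x⟫) φ := by
  simp only [inner_a ha hb hab, inner_b ha hb hab]
  have h : HasDerivAt (fun ψ => cos ψ * ⟪a, x⟫ - sin ψ * ⟪b, x⟫) (-sin φ * ⟪a, x⟫ - cos φ * ⟪b, x⟫) φ :=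
    ((hasDerivAt_cos φ).mul_const ⟪a, x⟫).sub ((hasDerivAt_sin φ).mul_const ⟪b, x⟫)
  exact h.congr_deriv (by ring)

theorem hasDeriv_b {a b : E n} (ha : ‖a‖ = 1) (hb : ‖b‖ = 1) (hab : ⟪a, b⟫ = 0) (x : E n) (φ : ℝ) :
    HasDerivAt (fun ψ => ⟪b, rtL a b ψ x⟫) ⟪a, rtL a b φ x⟫ φ := by
  simp only [inner_a ha hb hab, inner_b ha hb hab]
  have h : HasDerivAt (fun ψ => cos ψ * ⟪b, x⟫ + sin ψ * ⟪a, x⟫) (-sin φ * ⟪b, x⟫ + cos φ * ⟪a, x⟫) φ :=
    ((hasDerivAt_cos φ).mul_const ⟪b, x⟫).add ((hasDerivAt_sin φ).mul_const ⟪a, x⟫)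
  exact h.congr_deriv (by ring)

/-- the point `z = <v,x> + i <w,x>` -/
noncomputable def zz (v w x : E n) : ℂ := (⟪v, x⟫ : ℝ) + (⟪w, x⟫ : ℝ) * Complex.I

/-- `1 - |z|²` -/
noncomputable def PP (v w x : E n) : ℝ := 1 - ⟪v, x⟫ ^ 2 - ⟪w, x⟫ ^ 2

theorem zz_cont (v w : E n) : Continuous (zz v w) := by
  unfold zz
  fun_prop

theorem PP_cont (v w : E n) : Continuous (PP v w) := by
  unfold PP
  fun_prop

section gen
variable {v w e : E n} (hv : ‖v‖ = 1) (hw : ‖w‖ = 1) (hvw : ⟪v, w⟫ = 0) (he : ‖e‖ = 1) (hve : ⟪v, e⟫ = 0)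
  (hwe : ⟪w, e⟫ = 0) {Q Q' : ℝ → ℝ} (hQ : ∀ s, HasDerivAt Q (Q' s) s) (hQ' : Continuous Q') (m j : ℕ)
include hv hw hvw he hve hwe hQ hQ'

/-- the identity for the plane of `v` and `e` -/
theorem gen_v : ∫ x : SS n, ((⟪v, (x : E n)⟫ : ℝ) * ((PP v w x : ℝ) : ℂ) ^ j * ((Q ⟪v, (x : E n)⟫ : ℝ) : ℂ) * zz v w x ^ m
    + 2 * j * ((⟪v, (x : E n)⟫ : ℝ) : ℂ) * ((⟪e, (x : E n)⟫ : ℝ) : ℂ) ^ 2 * ((PP v w x : ℝ) : ℂ) ^ (j - 1) *
        ((Q ⟪v, (x : E n)⟫ : ℝ) : ℂ) * zz v w x ^ m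
    - ((⟪e, (x : E n)⟫ : ℝ) : ℂ) ^ 2 * ((PP v w x : ℝ) : ℂ) ^ j * ((Q' ⟪v, (x : E n)⟫ : ℝ) : ℂ) * zz v w x ^ m
    - m * ((⟪e, (x : E n)⟫ : ℝ) : ℂ) ^ 2 * ((PP v w x : ℝ) : ℂ) ^ j * ((Q ⟪v, (x : E n)⟫ : ℝ) : ℂ) *
        zz v w x ^ (m - 1)) ∂(sg n) = 0 := by
  have hQc : Continuous Q := continuous_iff_continuousAt.2 fun s => (hQ s).continuousAt
  have hz := zz_cont v w
  have hP := PP_cont v w
  refine gen0 (n := n) hv he hve
    (F := fun x => ((⟪e, x⟫ : ℝ) : ℂ) * ((PP v w x : ℝ) : ℂ) ^ j * ((Q ⟪v, x⟫ : ℝ) : ℂ) * zz v w x ^ m)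
    (D := fun x => (⟪v, x⟫ : ℝ) * ((PP v w x : ℝ) : ℂ) ^ j * ((Q ⟪v, x⟫ : ℝ) : ℂ) * zz v w x ^ m
    + 2 * j * ((⟪v, x⟫ : ℝ) : ℂ) * ((⟪e, x⟫ : ℝ) : ℂ) ^ 2 * ((PP v w x : ℝ) : ℂ) ^ (j - 1) *
        ((Q ⟪v, x⟫ : ℝ) : ℂ) * zz v w x ^ m
    - ((⟪e, x⟫ : ℝ) : ℂ) ^ 2 * ((PP v w x : ℝ) : ℂ) ^ j * ((Q' ⟪v, x⟫ : ℝ) : ℂ) * zz v w x ^ m
    - m * ((⟪e, x⟫ : ℝ) : ℂ) ^ 2 * ((PP v w x : ℝ) : ℂ) ^ j * ((Q ⟪v, x⟫ : ℝ) : ℂ) *
        zz v w x ^ (m - 1)) ?_ ?_ ?_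
  · fun_prop
  · fun_prop
  · intro x φ
    have ds := hasDeriv_a hv he hve x φ
    have de := hasDeriv_b hv he hve x φ
    have hy : ∀ ψ, ⟪w, rtL v e ψ x⟫ = ⟪w, x⟫ := fun ψ =>
      inner_c (by rw [real_inner_comm, hvw]) hwe ψ x
    have dP : HasDerivAt (fun ψ => PP v w (rtL v e ψ x)) (2 * ⟪v, rtL v e φ x⟫ * ⟪e, rtL v e φ x⟫) φ := by
      unfold PP
      simp only [hy]
      have h := ((ds.pow 2).const_sub 1).sub_const (⟪w, x⟫ ^ 2)
      refine h.congr_deriv ?_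
      push_cast
      ring
    have dz : HasDerivAt (fun ψ => zz v w (rtL v e ψ x)) (-((⟪e, rtL v e φ x⟫ : ℝ) : ℂ)) φ := by
      unfold zz
      simp only [hy]
      have h := (ds.ofReal_comp).add_const (((⟪w, x⟫ : ℝ) : ℂ) * Complex.I)
      refine h.congr_deriv ?_
      push_cast
      ring
    have dQ : HasDerivAt (fun ψ => Q ⟪v, rtL v e ψ x⟫) (Q' ⟪v, rtL v e φ x⟫ * -⟪e, rtL v e φ x⟫) φ :=
      (hQ _).comp φ ds
    have h := ((de.ofReal_comp.mul (dP.ofReal_comp.pow j)).mul dQ.ofReal_comp).mul (dz.pow m)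
    refine h.congr_deriv ?_
    simp only [Pi.mul_apply, Pi.pow_apply]
    push_cast
    ring

omit hQ' in
/-- the identity for the plane of `w` and `e` -/
theorem gen_w : ∫ x : SS n, ((⟪w, (x : E n)⟫ : ℝ) * ((PP v w x : ℝ) : ℂ) ^ j * ((Q ⟪v, (x : E n)⟫ : ℝ) : ℂ) * zz v w x ^ m
    + 2 * j * ((⟪w, (x : E n)⟫ : ℝ) : ℂ) * ((⟪e, (x : E n)⟫ : ℝ) : ℂ) ^ 2 * ((PP v w x : ℝ) : ℂ) ^ (j - 1) *
        ((Q ⟪v, (x : E n)⟫ : ℝ) : ℂ) * zz v w x ^ m
    - Complex.I * m * ((⟪e, (x : E n)⟫ : ℝ) : ℂ) ^ 2 * ((PP v w x : ℝ) : ℂ) ^ j * ((Q ⟪v, (x : E n)⟫ : ℝ) : ℂ) *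
        zz v w x ^ (m - 1)) ∂(sg n) = 0 := by
  have hQc : Continuous Q := continuous_iff_continuousAt.2 fun s => (hQ s).continuousAt
  have hz := zz_cont v w
  have hP := PP_cont v w
  refine gen0 (n := n) hw he hwe
    (F := fun x => ((⟪e, x⟫ : ℝ) : ℂ) * ((PP v w x : ℝ) : ℂ) ^ j * ((Q ⟪v, x⟫ : ℝ) : ℂ) * zz v w x ^ m)
    (D := fun x => (⟪w, x⟫ : ℝ) * ((PP v w x : ℝ) : ℂ) ^ j * ((Q ⟪v, x⟫ : ℝ) : ℂ) * zz v w x ^ m
    + 2 * j * ((⟪w, x⟫ : ℝ) : ℂ) * ((⟪e, x⟫ : ℝ) : ℂ) ^ 2 * ((PP v w x : ℝ) : ℂ) ^ (j - 1) *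
        ((Q ⟪v, x⟫ : ℝ) : ℂ) * zz v w x ^ m
    - Complex.I * m * ((⟪e, x⟫ : ℝ) : ℂ) ^ 2 * ((PP v w x : ℝ) : ℂ) ^ j * ((Q ⟪v, x⟫ : ℝ) : ℂ) *
        zz v w x ^ (m - 1)) ?_ ?_ ?_
  · fun_prop
  · fun_prop
  · intro x φ
    have dy := hasDeriv_a hw he hwe x φ
    have de := hasDeriv_b hw he hwe x φ
    have hs : ∀ ψ, ⟪v, rtL w e ψ x⟫ = ⟪v, x⟫ := fun ψ => inner_c hvw hve ψ x
    have dP : HasDerivAt (fun ψ => PP v w (rtL w e ψ x)) (2 * ⟪w, rtL w e φ x⟫ * ⟪e, rtL w e φ x⟫) φ := by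
      unfold PP
      simp only [hs]
      have h := (dy.pow 2).const_sub (1 - ⟪v, x⟫ ^ 2)
      refine h.congr_deriv ?_
      push_cast
      ring
    have dz : HasDerivAt (fun ψ => zz v w (rtL w e ψ x)) (-((⟪e, rtL w e φ x⟫ : ℝ) : ℂ) * Complex.I) φ := by
      unfold zz
      simp only [hs]
      have h := (dy.ofReal_comp.mul_const Complex.I).const_add (((⟪v, x⟫ : ℝ) : ℂ))
      refine h.congr_deriv ?_
      push_cast
      ring
    have h := ((de.ofReal_comp.mul (dP.ofReal_comp.pow j)).mul_const ((Q ⟪v, x⟫ : ℝ) : ℂ)).mul (dz.pow m)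
    refine (h.congr_deriv ?_).congr_of_eventuallyEq (Filter.Eventually.of_forall fun ψ => ?_)
    · simp only [Pi.mul_apply, Pi.pow_apply, hs]
      push_cast
      ring
    · simp only [hs]
      rfl

/-- the combination of the two identities -/
theorem gen_e : ∫ x : SS n, (((PP v w x : ℝ) : ℂ) ^ j * ((Q ⟪v, (x : E n)⟫ : ℝ) : ℂ) * zz v w x ^ (m + 1)
    + 2 * j * ((⟪e, (x : E n)⟫ : ℝ) : ℂ) ^ 2 * ((PP v w x : ℝ) : ℂ) ^ (j - 1) *
        ((Q ⟪v, (x : E n)⟫ : ℝ) : ℂ) * zz v w x ^ (m + 1)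
    - ((⟪e, (x : E n)⟫ : ℝ) : ℂ) ^ 2 * ((PP v w x : ℝ) : ℂ) ^ j * ((Q' ⟪v, (x : E n)⟫ : ℝ) : ℂ) * zz v w x ^ m)
      ∂(sg n) = 0 := by
  have : IsFiniteMeasure (sg n) := by unfold sg; infer_instance
  have hint : ∀ {G : SS n → ℂ}, Continuous G → Integrable G (sg n) := fun {G} hG =>
    hG.integrable_of_hasCompactSupport (HasCompactSupport.of_compactSpace G)
  have hQc : Continuous Q := continuous_iff_continuousAt.2 fun s => (hQ s).continuousAt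
  have hz := zz_cont v w
  have hP := PP_cont v w
  have h1 := gen_v hv hw hvw he hve hwe hQ hQ' m j
  have h2 := gen_w hv hw hvw he hve hwe hQ m j
  have h3 := congrArg (fun t => Complex.I * t) h2
  simp only [mul_zero] at h3
  rw [← integral_const_mul] at h3
  have h4 := congrArg₂ (· + ·) h1 h3
  simp only [add_zero] at h4
  rw [← integral_add (hint (by fun_prop)) (hint (by fun_prop))] at h4
  rw [← h4]
  refine integral_congr_ae (Filter.Eventually.of_forall fun x => ?_)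
  dsimp only
  have hI := Complex.I_mul_I
  rw [pow_succ (zz v w x) m]
  nth_rewrite 2 [zz]
  nth_rewrite 3 [zz]
  linear_combination (m * ((⟪e, (x : E n)⟫ : ℝ) : ℂ) ^ 2 * ((PP v w x : ℝ) : ℂ) ^ j *
    ((Q ⟪v, (x : E n)⟫ : ℝ) : ℂ) * zz v w x ^ (m - 1)) * hI

end gen

theorem exists_basis (hn : 3 ≤ n) {v w : E n} (hv : ‖v‖ = 1) (hw : ‖w‖ = 1) (hvw : ⟪v, w⟫ = 0) :
    ∃ (b : OrthonormalBasis (Fin n) ℝ (E n)) (i0 i1 : Fin n), i0 ≠ i1 ∧ b i0 = v ∧ b i1 = w := by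
  have h01 : (⟨0, by omega⟩ : Fin n) ≠ ⟨1, by omega⟩ := by simp
  set i0 : Fin n := ⟨0, by omega⟩
  set i1 : Fin n := ⟨1, by omega⟩
  have ho : Orthonormal ℝ (({i0, i1} : Set (Fin n)).restrict fun i => if i = i0 then v else w) := by
    refine ⟨fun i => ?_, fun i j hij => ?_⟩
    · obtain ⟨i, hi⟩ := i
      change ‖(if i = i0 then v else w)‖ = 1
      split_ifs
      · exact hv
      · exact hw
    · obtain ⟨i, hi⟩ := i
      obtain ⟨j, hj⟩ := j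
      have hij' : i ≠ j := fun h => hij (Subtype.ext h)
      change ⟪(if i = i0 then v else w), (if j = i0 then v else w)⟫ = 0
      rcases hi with rfl | hi <;> rcases hj with rfl | hj
      · exact absurd rfl hij'
      · rw [Set.mem_singleton_iff] at hj
        rw [if_pos rfl, if_neg (by rw [hj]; exact h01.symm), hvw]
      · rw [Set.mem_singleton_iff] at hi
        rw [if_neg (by rw [hi]; exact h01.symm), if_pos rfl, real_inner_comm, hvw]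
      · rw [Set.mem_singleton_iff] at hi hj
        exact absurd (hi.trans hj.symm) hij'
  obtain ⟨b, hb⟩ := ho.exists_orthonormalBasis_extension_of_card_eq (by simp)
  refine ⟨b, i0, i1, h01, ?_, ?_⟩
  · rw [hb i0 (by simp)]
    simp
  · rw [hb i1 (by simp)]
    simp [h01.symm]

theorem gen : S_gen := by
  intro n hn v w hv hw hvw Q Q' hQ hQ' m j
  have : IsFiniteMeasure (sg n) := by unfold sg; infer_instance
  have hint : ∀ {G : SS n → ℂ}, Continuous G → Integrable G (sg n) := fun {G} hG =>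
    hG.integrable_of_hasCompactSupport (HasCompactSupport.of_compactSpace G)
  have hQc : Continuous Q := continuous_iff_continuousAt.2 fun s => (hQ s).continuousAt
  have hz := zz_cont v w
  have hP := PP_cont v w
  obtain ⟨b, i0, i1, h01, hb0, hb1⟩ := exists_basis hn hv hw hvw
  set T : Finset (Fin n) := Finset.univ \ {i0, i1} with hT
  have hcard : (T.card : ℂ) = (n : ℂ) - 2 := by
    have h : T.card = n - 2 := by
      rw [hT, Finset.card_sdiff_of_subset (Finset.subset_univ _), Finset.card_univ, Fintype.card_fin,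
        Finset.card_pair h01]
    rw [h, Nat.cast_sub (by omega)]
    norm_num
  have hsum : ∀ x : SS n, ∑ i ∈ T, ((⟪b i, (x : E n)⟫ : ℝ) : ℂ) ^ 2 = ((PP v w x : ℝ) : ℂ) := by
    intro x
    have h1 : ∑ i, ⟪b i, (x : E n)⟫ ^ 2 = 1 := by
      have h := b.sum_sq_norm_inner_right (x : E n)
      simp only [Real.norm_eq_abs, sq_abs] at h
      rw [h, norm_eq_of_mem_sphere x, one_pow]
    have h2 : ∑ i ∈ T, ⟪b i, (x : E n)⟫ ^ 2 = PP v w x := by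
      have h3 := Finset.sum_sdiff (f := fun i => ⟪b i, (x : E n)⟫ ^ 2) (Finset.subset_univ ({i0, i1} : Finset (Fin n)))
      rw [h1, Finset.sum_pair h01, hb0, hb1] at h3
      unfold PP
      linarith
    rw [← h2]
    push_cast
    rfl
  have h0 : ∀ i ∈ T, ∫ x : SS n, (((PP v w x : ℝ) : ℂ) ^ j * ((Q ⟪v, (x : E n)⟫ : ℝ) : ℂ) * zz v w x ^ (m + 1)
    + 2 * j * ((⟪b i, (x : E n)⟫ : ℝ) : ℂ) ^ 2 * ((PP v w x : ℝ) : ℂ) ^ (j - 1) *
        ((Q ⟪v, (x : E n)⟫ : ℝ) : ℂ) * zz v w x ^ (m + 1)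
    - ((⟪b i, (x : E n)⟫ : ℝ) : ℂ) ^ 2 * ((PP v w x : ℝ) : ℂ) ^ j * ((Q' ⟪v, (x : E n)⟫ : ℝ) : ℂ) * zz v w x ^ m)
      ∂(sg n) = 0 := by
    intro i hi
    rw [hT, Finset.mem_sdiff, Finset.mem_insert, Finset.mem_singleton, not_or] at hi
    refine gen_e hv hw hvw (b.orthonormal.1 i) ?_ ?_ hQ hQ' m j
    · rw [← hb0]
      exact b.orthonormal.2 (Ne.symm hi.2.1)
    · rw [← hb1]
      exact b.orthonormal.2 (Ne.symm hi.2.2)
  have h1 := Finset.sum_congr rfl h0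
  rw [Finset.sum_const_zero, ← integral_finsetSum T (fun i _ => hint (by fun_prop))] at h1
  have h2 : ∀ x : SS n, ∑ i ∈ T, (((PP v w x : ℝ) : ℂ) ^ j * ((Q ⟪v, (x : E n)⟫ : ℝ) : ℂ) * zz v w x ^ (m + 1)
    + 2 * j * ((⟪b i, (x : E n)⟫ : ℝ) : ℂ) ^ 2 * ((PP v w x : ℝ) : ℂ) ^ (j - 1) *
        ((Q ⟪v, (x : E n)⟫ : ℝ) : ℂ) * zz v w x ^ (m + 1)
    - ((⟪b i, (x : E n)⟫ : ℝ) : ℂ) ^ 2 * ((PP v w x : ℝ) : ℂ) ^ j * ((Q' ⟪v, (x : E n)⟫ : ℝ) : ℂ) * zz v w x ^ m)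
      = ((n : ℂ) - 2 + 2 * j) * (((PP v w x : ℝ) : ℂ) ^ j * ((Q ⟪v, (x : E n)⟫ : ℝ) : ℂ) * zz v w x ^ (m + 1))
        - ((PP v w x : ℝ) : ℂ) ^ (j + 1) * ((Q' ⟪v, (x : E n)⟫ : ℝ) : ℂ) * zz v w x ^ m := by
    intro x
    have e1 : ∑ i ∈ T, 2 * (j : ℂ) * ((⟪b i, (x : E n)⟫ : ℝ) : ℂ) ^ 2 * ((PP v w x : ℝ) : ℂ) ^ (j - 1) *
        ((Q ⟪v, (x : E n)⟫ : ℝ) : ℂ) * zz v w x ^ (m + 1) =
        2 * (j : ℂ) * ((PP v w x : ℝ) : ℂ) ^ j * ((Q ⟪v, (x : E n)⟫ : ℝ) : ℂ) * zz v w x ^ (m + 1) := by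
      rw [← Finset.sum_mul, ← Finset.sum_mul, ← Finset.sum_mul, ← Finset.mul_sum, hsum]
      rcases j with _ | j
      · simp
      · rw [Nat.add_sub_cancel, pow_succ]
        ring
    have e2 : ∑ i ∈ T, ((⟪b i, (x : E n)⟫ : ℝ) : ℂ) ^ 2 * ((PP v w x : ℝ) : ℂ) ^ j *
        ((Q' ⟪v, (x : E n)⟫ : ℝ) : ℂ) * zz v w x ^ m =
        ((PP v w x : ℝ) : ℂ) ^ (j + 1) * ((Q' ⟪v, (x : E n)⟫ : ℝ) : ℂ) * zz v w x ^ m := by
      rw [← Finset.sum_mul, ← Finset.sum_mul, ← Finset.sum_mul, hsum, pow_succ]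
      ring
    rw [Finset.sum_sub_distrib, Finset.sum_add_distrib, e1, e2, Finset.sum_const, nsmul_eq_mul, hcard]
    ring
  simp only [h2] at h1
  rw [integral_sub (hint (by fun_prop)) (hint (by fun_prop)), integral_const_mul, sub_eq_zero] at h1
  refine Eq.trans ?_ (h1.trans ?_)
  · congr 1
    refine integral_congr_ae (Filter.Eventually.of_forall fun x => ?_)
    dsimp only
    unfold PP zz
    push_cast
    ring
  · refine integral_congr_ae (Filter.Eventually.of_forall fun x => ?_)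
    dsimp only
    unfold PP zz
    push_cast
    ring

end Pool.Agent.Helper20.LR
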