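import Pool.Agent.Helper20.LR.Gen

/-!
# The multipliers of degree at least three are smaller than the one of degree two (MP_a2630c_LR, row MUL)
-/

set_option autoImplicit false
set_option linter.unusedSectionVars false

open MeasureTheory Set Metric Real
open scoped RealInnerProductSpace ENNReal Pointwise
open Pool.Agent.Helper16.Buoy (E)
open Pool.Agent.Helper73.LR

namespace Pool.Agent.Helper20.LR

variable {n : ℕ}

instance sg_fin : IsFiniteMeasure (sg n) := by unfold sg; infer_instance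

instance sg_pos : (sg n).IsOpenPosMeasure := by unfold sg; infer_instance

theorem sg_int {F : Type*} [NormedAddCommGroup F] {G : SS n → F} (hG : Continuous G) : Integrable G (sg n) :=
  hG.integrable_of_hasCompactSupport (HasCompactSupport.of_compactSpace G)

theorem zz_normSq (v w x : E n) : ‖zz v w x‖ ^ 2 = ⟪v, x⟫ ^ 2 + ⟪w, x⟫ ^ 2 := by
  rw [← Complex.normSq_eq_norm_sq]
  unfold zz
  rw [Complex.normSq_add_mul_I]

theorem PP_eq (v w x : E n) : PP v w x = 1 - ‖zz v w x‖ ^ 2 := by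
  rw [zz_normSq]
  unfold PP
  ring

theorem PP_nonneg {v w : E n} (hv : ‖v‖ = 1) (hw : ‖w‖ = 1) (hvw : ⟪v, w⟫ = 0) (x : SS n) : 0 ≤ PP v w x := by
  have hx : ‖(x : E n)‖ = 1 := norm_eq_of_mem_sphere x
  have h : PP v w x = ‖(x : E n) - ⟪v, (x : E n)⟫ • v - ⟪w, (x : E n)⟫ • w‖ ^ 2 := by
    unfold PP
    rw [← real_inner_self_eq_norm_sq]
    simp only [inner_sub_left, inner_sub_right, inner_smul_left, inner_smul_right, conj_trivial,
      real_inner_self_eq_norm_sq, hv, hw, hx, hvw, real_inner_comm v w, real_inner_comm v (x : E n),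
      real_inner_comm w (x : E n)]
    ring
  rw [h]
  positivity

theorem zz_le {v w : E n} (hv : ‖v‖ = 1) (hw : ‖w‖ = 1) (hvw : ⟪v, w⟫ = 0) (x : SS n) : ‖zz v w x‖ ≤ 1 := by
  have h1 := PP_nonneg hv hw hvw x
  rw [PP_eq] at h1
  nlinarith [norm_nonneg (zz v w (x : E n))]

theorem re_pow_le {v w : E n} (hv : ‖v‖ = 1) (hw : ‖w‖ = 1) (hvw : ⟪v, w⟫ = 0) (x : SS n) (k : ℕ) :
    |(zz v w x ^ k).re| ≤ 1 := by
  refine (Complex.abs_re_le_norm _).trans ?_
  rw [norm_pow]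
  exact pow_le_one₀ (norm_nonneg _) (zz_le hv hw hvw x)

theorem re_pow_gap {v w : E n} (hv : ‖v‖ = 1) (hw : ‖w‖ = 1) (hvw : ⟪v, w⟫ = 0) (x : SS n) {m : ℕ} (hm : 1 ≤ m) :
    PP v w x / 2 ≤ 1 - (zz v w x ^ m).re := by
  have h1 : (zz v w x ^ m).re ≤ ‖zz v w x‖ := by
    refine (Complex.re_le_norm _).trans ?_
    rw [norm_pow]
    exact pow_le_of_le_one (norm_nonneg _) (zz_le hv hw hvw x) (by omega)
  rw [PP_eq]
  nlinarith [sq_nonneg (1 - ‖zz v w (x : E n)‖)]

/-- real form of the generator identity -/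
theorem gen_re (hn : 3 ≤ n) {v w : E n} (hv : ‖v‖ = 1) (hw : ‖w‖ = 1) (hvw : ⟪v, w⟫ = 0)
    {Q Q' : ℝ → ℝ} (hQ : ∀ s, HasDerivAt Q (Q' s) s) (hQ' : Continuous Q') (m j : ℕ) :
    ((n : ℝ) - 2 + 2 * j) * ∫ x : SS n, Q ⟪v, (x : E n)⟫ * PP v w x ^ j * (zz v w x ^ (m + 1)).re ∂(sg n) =
      ∫ x : SS n, Q' ⟪v, (x : E n)⟫ * PP v w x ^ (j + 1) * (zz v w x ^ m).re ∂(sg n) := by
  have hQc : Continuous Q := continuous_iff_continuousAt.2 fun s => (hQ s).continuousAt
  have hz := zz_cont v w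
  have hP := PP_cont v w
  have h := gen hn hv hw hvw hQ hQ' m j
  have h1 : ∀ {Q : ℝ → ℝ} (hQ : Continuous Q) (j m : ℕ), (∫ x : SS n, ((Q (inner ℝ v (x : E n)) : ℝ) : ℂ) *
        (((1 - (inner ℝ v (x : E n)) ^ 2 - (inner ℝ w (x : E n)) ^ 2) ^ j : ℝ) : ℂ) *
        ((inner ℝ v (x : E n) : ℝ) + (inner ℝ w (x : E n) : ℝ) * Complex.I) ^ m ∂(sg n)).re =
        ∫ x : SS n, Q ⟪v, (x : E n)⟫ * PP v w x ^ j * (zz v w x ^ m).re ∂(sg n) := by
    intro Q hQ j m
    have h2 := integral_re (𝕜 := ℂ) (μ := sg n) (f := fun x : SS n => ((Q (inner ℝ v (x : E n)) : ℝ) : ℂ) *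
        (((1 - (inner ℝ v (x : E n)) ^ 2 - (inner ℝ w (x : E n)) ^ 2) ^ j : ℝ) : ℂ) *
        ((inner ℝ v (x : E n) : ℝ) + (inner ℝ w (x : E n) : ℝ) * Complex.I) ^ m)
        (sg_int (by fun_prop))
    refine h2.symm.trans ?_
    refine integral_congr_ae (Filter.Eventually.of_forall fun x => ?_)
    dsimp only
    rw [← Complex.ofReal_mul]
    exact Complex.re_ofReal_mul _ _
  have h3 := congrArg Complex.re h
  have h4 : ((n : ℂ) - 2 + 2 * j) = (((n : ℝ) - 2 + 2 * j : ℝ) : ℂ) := by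
    push_cast
    ring
  rw [h4, Complex.re_ofReal_mul, h1 hQc, h1 hQ'] at h3
  exact h3

/-! ### The smooth approximations of `(s - t)₊` -/

section K
variable (t e : ℝ)

noncomputable def rr (s : ℝ) : ℝ := √((s - t) ^ 2 + e ^ 2)

noncomputable def K0 (s : ℝ) : ℝ := ((s - t) + rr t e s) / 2

noncomputable def K1 (s : ℝ) : ℝ := (1 + (s - t) / rr t e s) / 2

noncomputable def K2 (s : ℝ) : ℝ := e ^ 2 / rr t e s ^ 3 / 2

variable {t e} (he : 0 < e)
include he

theorem rr_pos (s : ℝ) : 0 < rr t e s := by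
  unfold rr
  positivity

theorem rr_sq (s : ℝ) : rr t e s ^ 2 = (s - t) ^ 2 + e ^ 2 := by
  unfold rr
  exact Real.sq_sqrt (by positivity)

theorem rr_cont : Continuous (rr t e) := by
  unfold rr
  fun_prop

theorem rr_deriv (s : ℝ) : HasDerivAt (rr t e) ((s - t) / rr t e s) s := by
  have h1 : HasDerivAt (fun s : ℝ => (s - t) ^ 2 + e ^ 2) (2 * (s - t)) s := by
    have h := (((hasDerivAt_id s).sub_const t).pow 2).add_const (e ^ 2)
    refine h.congr_deriv ?_
    simp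
  have h2 := h1.sqrt (by positivity)
  refine h2.congr_deriv ?_
  unfold rr
  have := rr_pos (t := t) he s
  unfold rr at this
  field_simp

theorem K0_deriv (s : ℝ) : HasDerivAt (K0 t e) (K1 t e s) s := by
  have h := (((hasDerivAt_id s).sub_const t).add (rr_deriv (t := t) he s)).div_const 2
  exact h

theorem K1_deriv (s : ℝ) : HasDerivAt (K1 t e) (K2 t e s) s := by
  have hp := rr_pos (t := t) he s
  have h := ((((hasDerivAt_id s).sub_const t).div (rr_deriv (t := t) he s) hp.ne').const_add 1).div_const 2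
  refine h.congr_deriv ?_
  unfold K2
  have h2 := rr_sq (t := t) he s
  simp only [id_eq]
  field_simp
  linear_combination h2

theorem K1_cont : Continuous (K1 t e) := continuous_iff_continuousAt.2 fun s => (K1_deriv he s).continuousAt

theorem K0_cont : Continuous (K0 t e) := continuous_iff_continuousAt.2 fun s => (K0_deriv he s).continuousAt

theorem K2_cont : Continuous (K2 t e) := by
  unfold K2
  have h := rr_cont (t := t) he
  refine (continuous_const.div (h.pow 3) fun s => ?_).div_const 2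
  exact (pow_pos (rr_pos he s) 3).ne'

theorem K2_nonneg (s : ℝ) : 0 ≤ K2 t e s := by
  unfold K2
  have := rr_pos (t := t) he s
  positivity

theorem K0_near (s : ℝ) : |K0 t e s - max (s - t) 0| ≤ e := by
  have h1 : |s - t| ≤ rr t e s := by
    unfold rr
    exact Real.abs_le_sqrt (by nlinarith [sq_nonneg e])
  have h2 : rr t e s ≤ |s - t| + e := by
    unfold rr
    rw [Real.sqrt_le_left (by positivity)]
    nlinarith [abs_nonneg (s - t), sq_abs (s - t)]
  unfold K0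
  rcases le_total 0 (s - t) with h | h
  · rw [max_eq_left h, abs_le]
    rw [abs_of_nonneg h] at h1 h2
    constructor <;> linarith
  · rw [max_eq_right h, abs_le]
    rw [abs_of_nonpos h] at h1 h2
    constructor <;> linarith

theorem K1_mono : Monotone (K1 t e) :=
  monotone_of_deriv_nonneg (fun s => (K1_deriv he s).differentiableAt) fun s => by
    rw [(K1_deriv he s).deriv]
    exact K2_nonneg he s

theorem g_low (he1 : e ≤ 1) {u d : ℝ} (hd0 : 0 ≤ d) (hd : d ≤ u) (hd1 : d ≤ 1) : d / 2 ≤ u / √(u ^ 2 + e ^ 2) := by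
  have hr : 0 < √(u ^ 2 + e ^ 2) := by positivity
  have h2 : √(u ^ 2 + e ^ 2) ≤ u + 1 := by
    rw [Real.sqrt_le_left (by linarith)]
    nlinarith
  rw [le_div_iff₀ hr]
  nlinarith

/-- the odd part of the derivative -/
theorem K1_odd (he1 : e ≤ 1) {s : ℝ} (hs : |s| ≤ 1) :
    |s| * max (|s| - |t|) 0 / 2 ≤ (K1 t e s - K1 t e (-s)) * s := by
  have key : ∀ s : ℝ, 0 ≤ s → s ≤ 1 → s * max (s - |t|) 0 / 2 ≤ (K1 t e s - K1 t e (-s)) * s := by
    intro s hs0 hs1
    rcases le_total (s - |t|) 0 with h | h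
    · rw [max_eq_right h]
      have h1 : K1 t e (-s) ≤ K1 t e s := K1_mono he (by linarith)
      nlinarith
    · rw [max_eq_left h]
      have h1 : (s - |t|) / 2 ≤ (s - t) / √((s - t) ^ 2 + e ^ 2) :=
        g_low he he1 h (by linarith [le_abs_self t]) (by linarith [abs_nonneg t])
      have h2 : (s - |t|) / 2 ≤ (s + t) / √((s + t) ^ 2 + e ^ 2) :=
        g_low he he1 h (by linarith [neg_abs_le t]) (by linarith [abs_nonneg t])
      have h3 : K1 t e s - K1 t e (-s) = ((s - t) / √((s - t) ^ 2 + e ^ 2) + (s + t) / √((s + t) ^ 2 + e ^ 2)) / 2 := by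
        unfold K1 rr
        have h4 : (-s - t) ^ 2 = (s + t) ^ 2 := by ring
        rw [h4]
        ring
      rw [h3]
      nlinarith
  rcases le_total 0 s with h | h
  · rw [abs_of_nonneg h]
    exact key s h ((le_abs_self s).trans hs)
  · have h1 := key (-s) (by linarith) (by linarith [neg_abs_le s])
    rw [neg_neg] at h1
    rw [abs_of_nonpos h]
    linarith

end K

/-- the lower bound -/
noncomputable def cc (t : ℝ) (v w : E n) : ℝ :=
  ∫ x : SS n, PP v w x ^ 2 * (|⟪v, (x : E n)⟫| * max (|⟪v, (x : E n)⟫| - |t|) 0) ∂(sg n)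

theorem cc_pos (hn : 3 ≤ n) {v w : E n} (hv : ‖v‖ = 1) (hw : ‖w‖ = 1) (hvw : ⟪v, w⟫ = 0) {t : ℝ} (ht : |t| < 1) :
    0 < cc t v w := by
  have hz := zz_cont v w
  have hP := PP_cont v w
  obtain ⟨b, i0, i1, h01, hb0, hb1⟩ := exists_basis hn hv hw hvw
  obtain ⟨i2, h20, h21⟩ : ∃ i2 : Fin n, i2 ≠ i0 ∧ i2 ≠ i1 := by
    have h := Finset.exists_mem_notMem_of_card_lt_card (s := ({i0, i1} : Finset (Fin n))) (t := Finset.univ) (by
      rw [Finset.card_pair h01, Finset.card_univ, Fintype.card_fin]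
      omega)
    obtain ⟨i, _, hi⟩ := h
    rw [Finset.mem_insert, Finset.mem_singleton, not_or] at hi
    exact ⟨i, hi.1, hi.2⟩
  have he : ‖b i2‖ = 1 := b.orthonormal.1 i2
  have hve : ⟪v, b i2⟫ = 0 := by
    rw [← hb0]
    exact b.orthonormal.2 (Ne.symm h20)
  have hwe : ⟪w, b i2⟫ = 0 := by
    rw [← hb1]
    exact b.orthonormal.2 (Ne.symm h21)
  set s : ℝ := (|t| + 1) / 2 with hs
  have hs1 : s < 1 := by rw [hs]; linarith
  have hst : |t| < s := by rw [hs]; linarith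
  have hs0 : 0 < s := (abs_nonneg t).trans_lt hst
  set x : E n := s • v + √(1 - s ^ 2) • b i2 with hx
  have hsv : ⟪v, x⟫ = s := by
    rw [hx, inner_add_right, inner_smul_right, inner_smul_right, hve, real_inner_self_eq_norm_sq, hv]
    ring
  have hsw : ⟪w, x⟫ = 0 := by
    rw [hx, inner_add_right, inner_smul_right, inner_smul_right, hwe, real_inner_comm, hvw]
    ring
  have hnx : ‖x‖ = 1 := by
    have h1 : ‖x‖ ^ 2 = 1 := by
      rw [← real_inner_self_eq_norm_sq]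
      have h2 : ⟪b i2, x⟫ = √(1 - s ^ 2) := by
        rw [hx, inner_add_right, inner_smul_right, inner_smul_right, real_inner_comm, hve,
          real_inner_self_eq_norm_sq, he]
        ring
      conv_lhs => rw [hx]
      rw [← hx, inner_add_left, inner_smul_left, inner_smul_left, hsv, h2]
      simp only [conj_trivial]
      have h3 : √(1 - s ^ 2) * √(1 - s ^ 2) = 1 - s ^ 2 := Real.mul_self_sqrt (by nlinarith)
      rw [h3]
      ring
    nlinarith [norm_nonneg x]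
  have hc : Continuous fun x : SS n => PP v w x ^ 2 * (|⟪v, (x : E n)⟫| * max (|⟪v, (x : E n)⟫| - |t|) 0) := by
    fun_prop
  refine hc.integral_pos_of_hasCompactSupport_nonneg_nonzero (HasCompactSupport.of_compactSpace _) (fun x => ?_)
    (x := ⟨x, by rw [mem_sphere_zero_iff_norm]; exact hnx⟩) ?_
  · positivity
  · dsimp only
    rw [hsv, abs_of_pos hs0, max_eq_left (by linarith)]
    have h1 : PP v w x = 1 - s ^ 2 := by
      unfold PP
      rw [hsv, hsw]
      ring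
    rw [h1]
    have h2 : 0 < 1 - s ^ 2 := by nlinarith
    have h3 : 0 < s - |t| := by linarith
    positivity

theorem sym_int {v w : E n} {t e : ℝ} (he : 0 < e) (he1 : e ≤ 1) (hv : ‖v‖ = 1) :
    cc t v w / 4 ≤ ∫ x : SS n, K1 t e ⟪v, (x : E n)⟫ * PP v w x ^ 2 * ⟪v, (x : E n)⟫ ∂(sg n) := by
  have hz := zz_cont v w
  have hP := PP_cont v w
  have hK := K1_cont (t := t) he
  have h1 := rot_gen (n := n) (LinearIsometryEquiv.neg ℝ) (fun x => K1 t e ⟪v, x⟫ * PP v w x ^ 2 * ⟪v, x⟫)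
  have h2 : ∀ x : E n, PP v w (-x) = PP v w x := by
    intro x
    unfold PP
    simp only [inner_neg_right]
    ring
  simp only [LinearIsometryEquiv.coe_neg, h2, inner_neg_right] at h1
  have h3 : ∫ x : SS n, K1 t e ⟪v, (x : E n)⟫ * PP v w x ^ 2 * ⟪v, (x : E n)⟫ ∂(sg n) =
      ∫ x : SS n, (PP v w x ^ 2 * ((K1 t e ⟪v, (x : E n)⟫ - K1 t e (-⟪v, (x : E n)⟫)) * ⟪v, (x : E n)⟫)) / 2 ∂(sg n) := by
    have h4 : ∫ x : SS n, (PP v w x ^ 2 * ((K1 t e ⟪v, (x : E n)⟫ - K1 t e (-⟪v, (x : E n)⟫)) * ⟪v, (x : E n)⟫)) / 2 ∂(sg n)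
        = (∫ x : SS n, K1 t e ⟪v, (x : E n)⟫ * PP v w x ^ 2 * ⟪v, (x : E n)⟫ ∂(sg n)) / 2 +
          (∫ x : SS n, K1 t e (-⟪v, (x : E n)⟫) * PP v w x ^ 2 * -⟪v, (x : E n)⟫ ∂(sg n)) / 2 := by
      rw [← integral_div, ← integral_div, ← integral_add (sg_int (by fun_prop)) (sg_int (by fun_prop))]
      refine integral_congr_ae (Filter.Eventually.of_forall fun x => ?_)
      dsimp only
      ring
    rw [h4, h1]
    ring
  rw [h3]
  unfold cc
  rw [← integral_div]
  refine integral_mono (sg_int (by fun_prop)) (sg_int (by fun_prop)) fun x => ?_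
  dsimp only
  have hx : |⟪v, (x : E n)⟫| ≤ 1 := by
    have h := abs_real_inner_le_norm v (x : E n)
    rwa [hv, norm_eq_of_mem_sphere x, one_mul] at h
  have h5 := K1_odd (t := t) he he1 hx
  have h6 : 0 ≤ PP v w (x : E n) ^ 2 := sq_nonneg _
  nlinarith

/-- two integrations by parts -/
theorem gen_two (hn : 3 ≤ n) {v w : E n} (hv : ‖v‖ = 1) (hw : ‖w‖ = 1) (hvw : ⟪v, w⟫ = 0) {t e : ℝ} (he : 0 < e)
    (k : ℕ) : (n : ℝ) * ((n : ℝ) - 2) * ∫ x : SS n, K0 t e ⟪v, (x : E n)⟫ * (zz v w x ^ (k + 2)).re ∂(sg n) =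
      ∫ x : SS n, K2 t e ⟪v, (x : E n)⟫ * PP v w x ^ 2 * (zz v w x ^ k).re ∂(sg n) := by
  have h1 := gen_re hn hv hw hvw (K0_deriv (t := t) he) (K1_cont he) (k + 1) 0
  have h2 := gen_re hn hv hw hvw (K1_deriv (t := t) he) (K2_cont he) k 1
  simp only [pow_zero, mul_one, Nat.cast_zero, mul_zero, add_zero, zero_add, pow_one, Nat.cast_one,
    show k + 1 + 1 = k + 2 from rfl, show 1 + 1 = 2 from rfl] at h1 h2
  rw [← h2, ← h1]
  ring

theorem main_bound (hn : 3 ≤ n) {v w : E n} (hv : ‖v‖ = 1) (hw : ‖w‖ = 1) (hvw : ⟪v, w⟫ = 0) {t e : ℝ}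
    (he : 0 < e) (he1 : e ≤ 1) {k : ℕ} (hk : 1 ≤ k) :
    ((n : ℝ) + 2) * cc t v w / 8 ≤ (n : ℝ) * ((n : ℝ) - 2) *
      ((∫ x : SS n, K0 t e ⟪v, (x : E n)⟫ * (zz v w x ^ 2).re ∂(sg n)) -
        ∫ x : SS n, K0 t e ⟪v, (x : E n)⟫ * (zz v w x ^ (k + 2)).re ∂(sg n)) := by
  have hz := zz_cont v w
  have hP := PP_cont v w
  have hK1 := K1_cont (t := t) he
  have hK2 := K2_cont (t := t) he
  have hre : ∀ k : ℕ, Continuous fun x : E n => (zz v w x ^ k).re := fun k =>
    Complex.continuous_re.comp (hz.pow k)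
  have hr0 := hre 0
  have hrk := hre k
  have h1 := gen_two hn hv hw hvw (t := t) he 0
  have h2 := gen_two hn hv hw hvw (t := t) he k
  have h3 := gen_re hn hv hw hvw (K1_deriv (t := t) he) (K2_cont he) 0 2
  have h4 := sym_int (w := w) (t := t) he he1 hv
  rw [mul_sub, h2]
  rw [zero_add] at h1
  rw [h1, ← integral_sub (sg_int (by fun_prop)) (sg_int (by fun_prop))]
  have h5 : ∫ x : SS n, K1 t e ⟪v, (x : E n)⟫ * PP v w x ^ 2 * (zz v w x ^ (0 + 1)).re ∂(sg n) =
      ∫ x : SS n, K1 t e ⟪v, (x : E n)⟫ * PP v w x ^ 2 * ⟪v, (x : E n)⟫ ∂(sg n) := by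
    refine integral_congr_ae (Filter.Eventually.of_forall fun x => ?_)
    dsimp only
    congr 1
    rw [zero_add, pow_one]
    unfold zz
    simp
  rw [h5] at h3
  have h6 : (∫ x : SS n, K2 t e ⟪v, (x : E n)⟫ * PP v w x ^ (2 + 1) * (zz v w x ^ 0).re ∂(sg n)) / 2 ≤
      ∫ x : SS n, (K2 t e ⟪v, (x : E n)⟫ * PP v w x ^ 2 * (zz v w x ^ 0).re -
        K2 t e ⟪v, (x : E n)⟫ * PP v w x ^ 2 * (zz v w x ^ k).re) ∂(sg n) := by
    rw [← integral_div]
    refine integral_mono (sg_int (by fun_prop)) (sg_int (by fun_prop)) fun x => ?_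
    dsimp only
    have h7 := re_pow_gap hv hw hvw x hk
    have h8 : 0 ≤ K2 t e ⟪v, (x : E n)⟫ * PP v w x ^ 2 := mul_nonneg (K2_nonneg he _) (sq_nonneg _)
    rw [pow_zero, Complex.one_re, pow_succ (PP v w (x : E n)) 2]
    nlinarith
  refine le_trans ?_ h6
  rw [← h3]
  push_cast
  have hn0 : (0 : ℝ) ≤ n := Nat.cast_nonneg n
  nlinarith

theorem near (e t : ℝ) (he : 0 < e) {v w : E n} (hv : ‖v‖ = 1) (hw : ‖w‖ = 1) (hvw : ⟪v, w⟫ = 0) (k : ℕ) :
    |(∫ x : SS n, K0 t e ⟪v, (x : E n)⟫ * (zz v w x ^ k).re ∂(sg n)) - mult t v w k| ≤ e * (sg n).real univ := by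
  have hz := zz_cont v w
  have hK0 := K0_cont (t := t) he
  have hre : Continuous fun x : E n => (zz v w x ^ k).re := Complex.continuous_re.comp (hz.pow k)
  have h1 : mult t v w k = ∫ x : SS n, max (⟪v, (x : E n)⟫ - t) 0 * (zz v w x ^ k).re ∂(sg n) := rfl
  rw [h1, ← integral_sub (sg_int (by fun_prop)) (sg_int (by fun_prop)), ← Real.norm_eq_abs]
  refine norm_integral_le_of_norm_le_const (Filter.Eventually.of_forall fun x => ?_)
  rw [← sub_mul, Real.norm_eq_abs, abs_mul]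
  calc _ ≤ e * 1 := mul_le_mul (K0_near he _) (re_pow_le hv hw hvw x k) (abs_nonneg _) he.le
    _ = e := mul_one e

theorem mult_lt : S_mult_lt := by
  intro n hn v w hv hw hvw t ht1 ht2 d hd
  obtain ⟨k, rfl⟩ : ∃ k, d = k + 2 := ⟨d - 2, by omega⟩
  by_contra hcon
  rw [not_lt] at hcon
  have hc := cc_pos hn hv hw hvw (abs_lt.2 ⟨ht1, ht2⟩)
  have hn3 : (3 : ℝ) ≤ n := by exact_mod_cast hn
  set A : ℝ := ((n : ℝ) + 2) * cc t v w / 8 with hA
  set σ : ℝ := (sg n).real univ with hσ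
  have hσ0 : 0 ≤ σ := measureReal_nonneg
  set B : ℝ := (n : ℝ) * ((n : ℝ) - 2) * (2 * σ) with hB
  have hA0 : 0 < A := by
    rw [hA]
    have : 0 < (n : ℝ) + 2 := by linarith
    positivity
  have hnn : 0 ≤ (n : ℝ) * ((n : ℝ) - 2) := mul_nonneg (by linarith) (by linarith)
  have hB0 : 0 ≤ B := by
    rw [hB]
    positivity
  have key : ∀ e : ℝ, 0 < e → e ≤ 1 → A ≤ B * e := by
    intro e he he1
    have h1 := main_bound hn hv hw hvw (t := t) he he1 (k := k) (by omega)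
    have h2 := abs_le.1 (near e t he hv hw hvw 2)
    have h3 := abs_le.1 (near e t he hv hw hvw (k + 2))
    refine h1.trans ?_
    have h4 : B * e = (n : ℝ) * ((n : ℝ) - 2) * (2 * σ * e) := by
      rw [hB]
      ring
    rw [h4]
    refine mul_le_mul_of_nonneg_left ?_ hnn
    linarith [h2.2, h3.1]
  have h0 : 0 < A / (2 * (B + 1)) := by positivity
  have h1 := key (min 1 (A / (2 * (B + 1)))) (lt_min one_pos h0) (min_le_left _ _)
  have h2 : B * min 1 (A / (2 * (B + 1))) ≤ B * (A / (2 * (B + 1))) :=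
    mul_le_mul_of_nonneg_left (min_le_right _ _) hB0
  have h3 : B * (A / (2 * (B + 1))) ≤ A / 2 := by
    rw [mul_div_assoc', div_le_div_iff₀ (by positivity) two_pos]
    nlinarith
  linarith

end Pool.Agent.Helper20.LR
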